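import Pool.Agent.Helper58.QD.StE

/-!
# Project QD, module OEQ: outer comparison of the quadratic forms
-/

set_option autoImplicit false

open Helper62.LH Helper62.DSH Helper58.QD MeasureTheory Set Filter Topology
open scoped ContDiff ENNReal

noncomputable section

namespace Pool.Agent.Helper83.QD

/-- a quadratic form is homogeneous -/
theorem qf_smul {M : ℕ} (S : Fin M → Fin M → ℝ) (r : ℝ) (c : Fin M → ℝ) : qf S (r • c) = r ^ 2 * qf S c := by
  unfold qf
  rw [Finset.mul_sum]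
  refine Finset.sum_congr rfl fun i _ => ?_
  rw [Finset.mul_sum]
  refine Finset.sum_congr rfl fun j _ => ?_
  simp only [Pi.smul_apply, smul_eq_mul]
  ring

theorem q2_cont {n j : ℕ} {u : E n → Tn n j} (hu : ContDiff ℝ ∞ u) : Continuous (fun x => q2 (u x)) := by
  unfold q2 ipt
  have h : ∀ I, Continuous (fun x => u x I) := fun I => (continuous_apply I).comp hu.continuous
  exact (continuous_finsetSum _ fun I _ => (h I).mul (h I)).div_const _

theorem hOeq : StDlv → TNrm → SGrw → SHfl → SLbd → SOex → SOeq := by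
  intro hDlv hNrm hGrw hHfl hLbd hOex n m g Γ F G hg hc hF hC hS p b β κ₀ r0 hB hL A hA W1 W2
  obtain ⟨C₀, T0, hC0, hT0, hO⟩ := hOex n m g Γ F G hg hc hF hC hS p b β κ₀ r0 hB hL A hA W1 W2
  obtain ⟨hv1, hv2, -⟩ := hDlv n g Γ hg hc
  obtain ⟨-, hcomp, -⟩ := hGrw n g Γ hg p b β κ₀ r0 hB hL
  refine ⟨2 * C₀ + 1, by linarith, ?_⟩
  intro M P hP K δ hK hδ hlow
  set Λ := ∑ i, ∫ x, q2 (P i x) * vol g x with hΛ
  obtain ⟨R1, hR1, hLb⟩ := hLbd n (m + 1) g Γ F G hg hc hF p b β κ₀ r0 hB hL M P hP K δ hK hδ hlow Λ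
  refine ⟨max T0 R1, le_max_of_le_left hT0, ?_⟩
  intro T a hT ha S S' hQ hQ' c
  have hTT0 : T0 ≤ T := (le_max_left _ _).trans hT
  have hTR1 : R1 ≤ T := (le_max_right _ _).trans hT
  have hT1 : 1 ≤ T := hT0.trans hTT0
  -- unit vectors
  have unit : ∀ c : Fin M → ℝ, ∑ i, c i ^ 2 = 1 → qf S' c ≤ (2 * C₀ + 1) * qf S c := by
    intro c hc1
    obtain ⟨hPc, hint⟩ := hHfl n (m + 1) g Γ F G hg hc hF M P hP c
    rw [hc1, one_mul, ← hΛ] at hint
    have hS0 := hQ.nonneg c
    have key1 : qf S' c ≤ C₀ * (qf S c + T ^ 2 * Λ) := by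
      refine le_of_forall_pos_le_add fun ε hε => ?_
      set κ := ε / (C₀ + 1) with hκ
      have hκ0 : 0 < κ := by positivity
      obtain ⟨u0, hu0, hi0⟩ := hQ.app c κ hκ0
      obtain ⟨u, hu, hi⟩ := hO T a hTT0 ha (fun x => ∑ i, c i • P i x) hPc u0 hu0 κ hκ0
      have h1 := hQ'.low c u hu
      have h2 : C₀ * ((∫ x in An β a T, q2 (u0 x) * vol g x)
          + T ^ 2 * ∫ x, q2 (∑ i, c i • P i x) * vol g x) ≤ C₀ * (qf S c + κ + T ^ 2 * Λ) := by
        refine mul_le_mul_of_nonneg_left ?_ hC0.le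
        have := mul_le_mul_of_nonneg_left hint (by positivity : (0 : ℝ) ≤ T ^ 2)
        linarith
      have h3 : (C₀ + 1) * κ = ε := by
        rw [hκ]; field_simp
      calc qf S' c ≤ _ := h1.trans hi
        _ ≤ C₀ * (qf S c + κ + T ^ 2 * Λ) + κ := by linarith
        _ = C₀ * (qf S c + T ^ 2 * Λ) + (C₀ + 1) * κ := by ring
        _ = _ := by rw [h3]
    have key2 : Λ * T ^ 2 ≤ qf S c := by
      refine le_of_forall_pos_le_add fun κ hκ => ?_
      obtain ⟨u, hu, hi⟩ := hQ.app c κ hκ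
      have h1 := hLb T hTR1 c hc1 u hu
      have hcont : Continuous (fun x => q2 (u x) * vol g x) := (q2_cont hu.1).mul hv1.continuous
      have h2 : ∫ x in An β (T / 2) T, q2 (u x) * vol g x ≤ ∫ x in An β a T, q2 (u x) * vol g x := by
        refine setIntegral_mono_set ?_ ?_ ?_
        · exact hcont.continuousOn.integrableOn_compact (hcomp a T)
        · refine Filter.Eventually.of_forall fun x => ?_
          exact mul_nonneg (((hNrm n (m + 1)).1 (u x)).1) (hv2 x).le
        · refine Filter.Eventually.of_forall fun x hx => ?_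
          have hx : T / 2 ≤ β x ∧ β x ≤ T := hx
          show a ≤ β x ∧ β x ≤ T
          exact ⟨by linarith [hx.1], hx.2⟩
      linarith
    have h3 : C₀ * (qf S c + T ^ 2 * Λ) ≤ C₀ * (qf S c + qf S c) := by
      refine mul_le_mul_of_nonneg_left ?_ hC0.le
      linarith
    linarith
  -- homogeneity
  set r := √(∑ i, c i ^ 2) with hr
  have hs0 : 0 ≤ ∑ i, c i ^ 2 := Finset.sum_nonneg fun i _ => sq_nonneg _
  have hr2 : r ^ 2 = ∑ i, c i ^ 2 := Real.sq_sqrt hs0
  rcases eq_or_ne (∑ i, c i ^ 2) 0 with h0 | h0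
  · have hz : ∀ i, c i = 0 := by
      intro i
      have := (Finset.sum_eq_zero_iff_of_nonneg fun i _ => sq_nonneg (c i)).1 h0 i (Finset.mem_univ i)
      exact pow_eq_zero_iff (two_ne_zero) |>.1 this
    have e : ∀ S : Fin M → Fin M → ℝ, qf S c = 0 := by
      intro S
      unfold qf
      refine Finset.sum_eq_zero fun i _ => Finset.sum_eq_zero fun j _ => ?_
      rw [hz i]; ring
    rw [e, e, mul_zero]
  · have hr0 : r ≠ 0 := by
      intro h
      rw [h] at hr2
      exact h0 (by rw [← hr2]; ring)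
    have e : c = r • (r⁻¹ • c) := by
      rw [smul_smul, mul_inv_cancel₀ hr0, one_smul]
    have h1 : ∑ i, (r⁻¹ • c) i ^ 2 = 1 := by
      have : ∀ i, (r⁻¹ • c) i ^ 2 = (r⁻¹) ^ 2 * c i ^ 2 := fun i => by
        simp only [Pi.smul_apply, smul_eq_mul]; ring
      rw [Finset.sum_congr rfl fun i _ => this i, ← Finset.mul_sum, ← hr2, inv_pow]
      exact inv_mul_cancel₀ (pow_ne_zero 2 hr0)
    have h2 := unit (r⁻¹ • c) h1
    rw [e, qf_smul S' r (r⁻¹ • c), qf_smul S r (r⁻¹ • c)]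
    have h3 := mul_le_mul_of_nonneg_left h2 (sq_nonneg r)
    linarith

end Pool.Agent.Helper83.QD
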